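import Pool.Agent.SGL.Main
import Pool.Agent.SLZ.Main

/-!
MP_57632f_nt, partial result: `π` is not algebraic over both of two fields which are generated by
numbers with simple expansions in multiplicatively independent bases (block complexity, and
Lempel-Ziv complexity with errors).
-/

set_option autoImplicit false

namespace Pool.Agent.Results.MP_57632f_nt.AlgebraicTwoBases

open Filter

/-- the `i`-th digit after the point (`i ≥ 1`) of the real number `x` in base `b` -/
noncomputable def digit (b : ℕ) (x : ℝ) (i : ℕ) : ℤ := ⌊x * (b : ℝ) ^ i⌋ % b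

/-- the number of different blocks of `n` consecutive digits of `x` in base `b` which start at one
of the first `N` places after the point -/
noncomputable def blocks (b : ℕ) (x : ℝ) (n N : ℕ) : ℕ :=
  {w : Fin n → ℤ | ∃ i < N, ∀ j : Fin n, w j = digit b x (i + 1 + j)}.ncard

/-- there is a word `u 0, ..., u (N - 1)` of digits in base `b`, a product of `m` phrases each of
which is a single letter or occurs also at an earlier place of the word (overlaps allowed), which
differs from the first `N` digits of `x` in base `b` at `e` places, and `m + e ≤ c` -/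
def Compressed (b : ℕ) (x : ℝ) (N c : ℕ) : Prop :=
  ∃ (u : ℕ → ℤ) (m : ℕ) (p : ℕ → ℕ), (∀ i, 0 ≤ u i ∧ u i < b) ∧ p 0 = 0 ∧ p m = N ∧
    (∀ j < m, p j < p (j + 1) ∧ (p (j + 1) = p j + 1 ∨
      ∃ s < p j, ∀ i, p j + i < p (j + 1) → u (s + i) = u (p j + i))) ∧
    m + ((Finset.range N).filter fun i => digit b x (i + 1) ≠ u i).card ≤ c

/-- Let `A` and `B` be finite sets of integers `≥ 2` such that the multiplicative groups generated
by `A` and by `B` have only the element `1` in common (for example `A = {10}`, `B = {2}`). Let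
`x 1, ..., x k` and `y 1, ..., y l` be real numbers, `x i` written in a base `a i` in `A`, `y j`
written in a base `b j` in `B`, such that `π` is algebraic over the field `ℚ(x 1, ..., x k)` and
over the field `ℚ(y 1, ..., y l)`. (1) For every `C` there is a `Λ` such that for all large `n` the
expansions of the `x i` and of the `y j` have together at least `C n` different blocks of `n`
digits, already among the first `Λ n` places. (2) For every `K` and all large `N`: if the first
`N` digits of each of these numbers can be changed into a product of phrases (single digits or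
words which occur earlier), then the numbers of phrases and of changes are together at least
`K log N`. -/
theorem result :
    ∀ (A B : Finset ℕ) (k l : ℕ) (a : Fin k → ℕ) (b : Fin l → ℕ) (x : Fin k → ℝ)
      (y : Fin l → ℝ), (∀ c ∈ A, 2 ≤ c) → (∀ c ∈ B, 2 ≤ c) →
      (∀ e f : ℕ → ℤ, ∏ c ∈ A, (c : ℚ) ^ e c = ∏ c ∈ B, (c : ℚ) ^ f c →
        ∏ c ∈ A, (c : ℚ) ^ e c = 1) →
      (∀ i, a i ∈ A) → (∀ j, b j ∈ B) →
      IsAlgebraic (IntermediateField.adjoin ℚ (Set.range x)) Real.pi →
      IsAlgebraic (IntermediateField.adjoin ℚ (Set.range y)) Real.pi →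
      (∀ C : ℕ, ∃ Λ : ℕ, ∀ᶠ n : ℕ in atTop,
        C * n ≤ ∑ i, blocks (a i) (x i) n (Λ * n) + ∑ j, blocks (b j) (y j) n (Λ * n)) ∧
      ∀ K : ℝ, ∀ᶠ N : ℕ in atTop, ∀ (c : Fin k → ℕ) (d : Fin l → ℕ),
        (∀ i, Compressed (a i) (x i) N (c i)) → (∀ j, Compressed (b j) (y j) N (d j)) →
        K * Real.log N ≤ ∑ i, (c i : ℝ) + ∑ j, (d j : ℝ) := by
  intro A B k l a b x y hA hB hT ha hb hx hy
  refine ⟨SGL.TAA_ Real.pi A B k l a b x y SGL.NUP_ hA hB hT ha hb hx hy, fun K => ?_⟩
  filter_upwards [SLZ.TAZ_ Real.pi A B k l a b x y SGL.NUP_ hA hB hT ha hb hx hy K] with N hN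
  intro c d hc hd
  refine hN (fun i => c i) (fun j => d j) (fun i => ?_) fun j => ?_
  · obtain ⟨u, m, p, h1, h2, h3, h4, h5⟩ := hc i
    exact ⟨u, m, p, h1, ⟨h2, h3, h4⟩, by exact_mod_cast h5⟩
  · obtain ⟨u, m, p, h1, h2, h3, h4, h5⟩ := hd j
    exact ⟨u, m, p, h1, ⟨h2, h3, h4⟩, by exact_mod_cast h5⟩

end Pool.Agent.Results.MP_57632f_nt.AlgebraicTwoBases
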