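import Pool.Agent.SBL.Main

/-!
MP_57632f_nt, partial result: the expansions of `π` in two multiplicatively independent bases are
not both compressible: a positive proportion of long blocks is different in one of them
(scale-free block complexity), the numbers of Lempel-Ziv phrases and the Hamming distances from
sequences of linear complexity are together not `O(log N)`.
-/

set_option autoImplicit false

namespace Pool.Agent.Results.MP_57632f_nt.LempelZiv

open Filter

/-- the `i`-th digit of the real number `x` after the point (`i ≥ 1`) in base `b` -/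
noncomputable def digit (b : ℕ) (x : ℝ) (i : ℕ) : ℤ := ⌊x * (b : ℝ) ^ i⌋ % b

/-- the number of different blocks `u i, ..., u (i + n - 1)` of length `n` with `1 ≤ i ≤ N` -/
noncomputable def blocks (u : ℕ → ℤ) (n N : ℕ) : ℕ :=
  {w : Fin n → ℤ | ∃ i, 1 ≤ i ∧ i ≤ N ∧ ∀ j : Fin n, w j = u (i + j)}.ncard

/-- the letters `u 1, ..., u N` are cut after the places `p 1 < ... < p k = N` into `k` phrases,
each of which is a single letter or occurs also at an earlier place (overlaps allowed) -/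
def Phrases (u : ℕ → ℤ) (N k : ℕ) : Prop :=
  ∃ p : ℕ → ℕ, p 0 = 0 ∧ p k = N ∧ ∀ j < k, p j < p (j + 1) ∧
    (p (j + 1) = p j + 1 ∨
      ∃ s < p j, ∀ i, 1 ≤ i → p j + i ≤ p (j + 1) → u (s + i) = u (p j + i))

/-- the number of places `1 ≤ i ≤ N` with `u i ≠ v i` -/
noncomputable def distance (u v : ℕ → ℤ) (N : ℕ) : ℕ :=
  ((Finset.Icc 1 N).filter (fun i => u i ≠ v i)).card

/-- `x` has a finite irrationality exponent -/
def FiniteExponent (x : ℝ) : Prop :=
  ∃ (μ : ℕ) (c : ℝ), 0 < c ∧ ∀ (q : ℕ) (P : ℤ), 0 < q → c ≤ |x - P / q| * (q : ℝ) ^ μ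

/-- the expansions of `x` in the bases `a` and `b` are not both compressible -/
def Incompressible (x : ℝ) (a b : ℕ) : Prop :=
  (∃ c : ℝ, 0 < c ∧ ∀ ε : ℝ, 0 < ε → ∀ᶠ N : ℕ in atTop, ∀ m n : ℕ, ε * N ≤ m → ε * N ≤ n →
    c * N ≤ blocks (digit a x) m N + blocks (digit b x) n N) ∧
  (∀ K : ℝ, ∀ᶠ N : ℕ in atTop, ∀ k l : ℕ, Phrases (digit a x) N k → Phrases (digit b x) N l →
    K * Real.log N ≤ k + l) ∧
  ∀ (v w : ℕ → ℤ) (C : ℝ), (∀ n N : ℕ, 1 ≤ n → blocks v n N ≤ C * n ∧ blocks w n N ≤ C * n) →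
    ∀ K : ℝ, ∀ᶠ N : ℕ in atTop,
      K * Real.log N ≤ distance (digit a x) v N + distance (digit b x) w N

theorem blocks_eq (u : ℕ → ℤ) (n N : ℕ) : blocks u n N = SBL.wds (fun i => u (i + 1)) n N := by
  unfold blocks SBL.wds
  congr 1
  ext w
  constructor
  · rintro ⟨i, h1, h2, h3⟩
    refine ⟨i - 1, by omega, fun j => ?_⟩
    rw [h3 j]
    congr 1
    omega
  · rintro ⟨i, h1, h2⟩
    refine ⟨i + 1, by omega, by omega, fun j => ?_⟩
    rw [h2 j]
    show u (i + j + 1) = u (i + 1 + j)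
    congr 1
    omega

theorem blocks_mono (u : ℕ → ℤ) (n k N : ℕ) : blocks u n N ≤ blocks u (n + k) N := by
  unfold blocks
  have h1 : {w : Fin n → ℤ | ∃ i, 1 ≤ i ∧ i ≤ N ∧ ∀ j : Fin n, w j = u (i + j)} =
      (fun w : Fin (n + k) → ℤ => fun j : Fin n => w (Fin.castAdd k j)) ''
        {w : Fin (n + k) → ℤ | ∃ i, 1 ≤ i ∧ i ≤ N ∧ ∀ j : Fin (n + k), w j = u (i + j)} := by
    ext w
    constructor
    · rintro ⟨i, h1, h2, h3⟩
      refine ⟨fun j => u (i + j), ⟨i, h1, h2, fun j => rfl⟩, ?_⟩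
      funext j
      rw [h3 j]
      rfl
    · rintro ⟨w', ⟨i, h1, h2, h3⟩, rfl⟩
      exact ⟨i, h1, h2, fun j => h3 _⟩
  rw [h1]
  apply Set.ncard_image_le
  have h2 : {w : Fin (n + k) → ℤ | ∃ i, 1 ≤ i ∧ i ≤ N ∧ ∀ j : Fin (n + k), w j = u (i + j)} ⊆
      (fun i => fun j : Fin (n + k) => u (i + j)) '' Set.Icc 1 N := by
    rintro w ⟨i, h1, h2, h3⟩
    exact ⟨i, ⟨h1, h2⟩, funext fun j => (h3 j).symm⟩
  exact ((Set.finite_Icc 1 N).image _).subset h2

theorem blocks_le (u : ℕ → ℤ) {m n : ℕ} (h : m ≤ n) (N : ℕ) : blocks u m N ≤ blocks u n N := by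
  obtain ⟨k, rfl⟩ := Nat.exists_eq_add_of_le h
  exact blocks_mono u m k N

theorem blocks_cnt (b : ℕ) (x : ℝ) (n N : ℕ) : blocks (digit b x) n N = SBT.cnt b x n N := by
  rw [blocks_eq]
  unfold SBL.wds SBT.cnt
  congr 1
  ext w
  constructor
  · rintro ⟨i, h1, h2⟩
    refine ⟨i, h1, fun j => ?_⟩
    rw [h2 j]
    show digit b x (i + j + 1) = SBT.dig b x (i + 1 + j)
    rw [show i + 1 + (j : ℕ) = i + j + 1 by omega]
    rfl
  · rintro ⟨i, h1, h2⟩
    refine ⟨i, h1, fun j => ?_⟩
    rw [h2 j]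
    show SBT.dig b x (i + 1 + j) = digit b x (i + j + 1)
    rw [show i + 1 + (j : ℕ) = i + j + 1 by omega]
    rfl

theorem phrases_cut {u : ℕ → ℤ} {N k : ℕ} (h : Phrases u N k) :
    ∃ p : ℕ → ℕ, SBL.Cut (fun i => u (i + 1)) N k p := by
  obtain ⟨p, h0, hk, h⟩ := h
  refine ⟨p, h0, hk, fun j hj => ⟨(h j hj).1, ?_⟩⟩
  rcases (h j hj).2 with h1 | ⟨s, hs, h1⟩
  · exact Or.inl h1
  · refine Or.inr ⟨s, hs, fun i hi => ?_⟩
    have := h1 (i + 1) (by omega) (by omega)
    show u (s + i + 1) = u (p j + i + 1)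
    rw [Nat.add_assoc, Nat.add_assoc]
    exact this

theorem distance_eq (b : ℕ) (x : ℝ) (v : ℕ → ℤ) (N : ℕ) :
    distance (digit b x) v N = SBL.ham b x (fun i => v (i + 1)) N := by
  unfold distance SBL.ham
  symm
  refine Finset.card_bij (fun i _ => i + 1) ?_ ?_ ?_
  · intro i hi
    rw [Finset.mem_filter, Finset.mem_range] at hi
    rw [Finset.mem_filter, Finset.mem_Icc]
    exact ⟨by omega, hi.2⟩
  · intro i _ j _ h
    simpa using h
  · intro i hi
    rw [Finset.mem_filter, Finset.mem_Icc] at hi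
    refine ⟨i - 1, ?_, by omega⟩
    rw [Finset.mem_filter, Finset.mem_range]
    refine ⟨by omega, ?_⟩
    have h1 : i - 1 + 1 = i := by omega
    show SBT.dig b x (i - 1 + 1) ≠ v (i - 1 + 1)
    rw [h1]
    exact hi.2

theorem main (x : ℝ) (a b : ℕ) (hx : FiniteExponent x) (ha : 2 ≤ a) (hb : 2 ≤ b)
    (hab : ∀ i j : ℕ, 0 < i → a ^ i ≠ b ^ j) : Incompressible x a b := by
  obtain ⟨μ, hμ⟩ := hx
  have hM : SBT.Meas x μ := hμ
  have hI : SBT.Indep a b := hab
  refine ⟨?_, ?_, ?_⟩
  · obtain ⟨c, hc, -, h⟩ := SBL.CPL_ a b x μ ha hb hI hM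
    refine ⟨c, hc, fun ε hε => ?_⟩
    filter_upwards [h ε hε] with N hN
    intro m n hm hn
    have h1 : ε * N ≤ (min m n : ℕ) := by
      rcases min_cases m n with ⟨e, -⟩ | ⟨e, -⟩
      · rw [e]; exact hm
      · rw [e]; exact hn
    have h2 := hN (min m n) h1
    rw [← blocks_cnt, ← blocks_cnt] at h2
    have h3 : (blocks (digit a x) (min m n) N : ℝ) ≤ blocks (digit a x) m N := by
      exact_mod_cast blocks_le _ (min_le_left m n) N
    have h4 : (blocks (digit b x) (min m n) N : ℝ) ≤ blocks (digit b x) n N := by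
      exact_mod_cast blocks_le _ (min_le_right m n) N
    linarith
  · intro K
    filter_upwards [SBL.LZL_ a b x μ ha hb hI hM K] with N hN
    intro k l hk hl
    obtain ⟨p, hp⟩ := phrases_cut hk
    obtain ⟨p', hp'⟩ := phrases_cut hl
    exact hN k l p p' hp hp'
  · intro v w C hC K
    have h1 := SBL.HML_ a b x μ ha hb hI hM (fun i => v (i + 1)) (fun i => w (i + 1)) C
      (fun n X hn => by
        rw [← blocks_eq, ← blocks_eq]
        exact hC n X hn) K
    filter_upwards [h1] with N hN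
    rw [distance_eq, distance_eq]
    exact hN

/-- Let `x` be a real number of finite irrationality exponent, for instance `x = π`, and let
`a, b ≥ 2` be multiplicatively independent.  Then the expansions of `x` in the bases `a` and `b` are
not both compressible.  (1) There is `c > 0` such that for every `ε > 0` and all large `N`: for all
`m, n ≥ ε N` the number of different blocks of `m` digits which start at the first `N` places in
base `a` and the number of those of `n` digits in base `b` are together at least `c N`.  (2) For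
every `K` and all large `N`: if the first `N` digits are cut into `k` (base `a`) and `l` (base `b`)
phrases, each of which is a single digit or occurs earlier, then `k + l ≥ K log N`.  (3) For all
sequences `v, w` of linear block complexity and every `K` the numbers of `i ≤ N` at which the `i`-th
digits in base `a` and in base `b` differ from `v i` and from `w i` are together at least
`K log N` for all large `N`. -/
theorem result :
    (∀ (x : ℝ) (a b : ℕ), FiniteExponent x → 2 ≤ a → 2 ≤ b →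
      (∀ i j : ℕ, 0 < i → a ^ i ≠ b ^ j) → Incompressible x a b) ∧
    ∀ a b : ℕ, 2 ≤ a → 2 ≤ b → (∀ i j : ℕ, 0 < i → a ^ i ≠ b ^ j) →
      Incompressible Real.pi a b :=
  ⟨main, fun a b ha hb hab => main Real.pi a b ⟨9, SBT.meas_pi⟩ ha hb hab⟩

end Pool.Agent.Results.MP_57632f_nt.LempelZiv
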