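import Pool.Agent.SRF.FBE

/-!
MP_57632f_nt: the analogue of Faltings' theorem on rational points for the field which is generated
by the real numbers of small block complexity in multiplicatively independent bases, and all
algebraic functions of `π`.
-/

set_option autoImplicit false

namespace Pool.Agent.Results.MP_57632f_nt.RationalPoints

open Filter

/-- the `i`-th digit after the point (`i ≥ 1`) of the real number `x` in base `b` -/
noncomputable def digit (b : ℕ) (x : ℝ) (i : ℕ) : ℤ := ⌊x * (b : ℝ) ^ i⌋ % b

/-- the number of different blocks of `n` consecutive digits of `x` in base `b` which start at one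
of the first `X` places after the point -/
noncomputable def blocks (b : ℕ) (x : ℝ) (n X : ℕ) : ℕ :=
  {w : Fin n → ℤ | ∃ i < X, ∀ j : Fin n, w j = digit b x (i + 1 + j)}.ncard

/-- `x` is simple in base `b`, with respect to the sequences `N` and `L`: for some `C` and all `k`
at most `C * N k` different blocks of `N k` digits start at one of the first `L k * N k` places -/
def Simple (N L : ℕ → ℕ) (b : ℕ) (x : ℝ) : Prop :=
  ∃ C : ℕ, ∀ k, blocks b x (N k) (L k * N k) ≤ C * N k

/-- the bases `b` and `c` have a common power -/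
def Dependent (b c : ℕ) : Prop := ∃ i j : ℕ, 1 ≤ i ∧ 1 ≤ j ∧ b ^ i = c ^ j

/-- the elements of `B` are multiplicatively independent -/
def Independent (B : Set ℕ) : Prop :=
  ∀ S : Finset ℕ, (S : Set ℕ) ⊆ B → ∀ e : ℕ → ℤ, ∏ b ∈ S, (b : ℚ) ^ e b = 1 → ∀ b ∈ S, e b = 0

/-- the real numbers which are simple in some base which has a common power with an element
of `B` -/
def generators (N L : ℕ → ℕ) (B : Set ℕ) : Set ℂ :=
  {z | ∃ b ∈ B, ∃ (c : ℕ) (x : ℝ), 2 ≤ c ∧ Dependent b c ∧ Simple N L c x ∧ z = x}

/-- the field of algebraic numbers -/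
abbrev A : Type := algebraicClosure ℚ ℂ

/-- the ring which is generated by the algebraic numbers and the simple numbers -/
noncomputable def R (N L : ℕ → ℕ) (B : Set ℕ) : Subalgebra A ℂ :=
  Algebra.adjoin A (generators N L B)

/-- the field which is generated by the algebraic numbers and the simple numbers -/
noncomputable def F (N L : ℕ → ℕ) (B : Set ℕ) : IntermediateField A ℂ :=
  IntermediateField.adjoin A (generators N L B)

/-- a differential `ω` of the extension `E` of `k` is regular if for each valuation ring of `E`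
which contains `k` it is a sum of differentials `a dz` with `a` and `z` in the valuation ring -/
def Regular {k E : Type} [Field k] [Field E] [Algebra k E] (ω : Ω[E⁄k]) : Prop :=
  ∀ V : ValuationSubring E, (∀ c : k, algebraMap k E c ∈ V) →
    ∃ (n : ℕ) (a z : Fin n → E), (∀ i, a i ∈ V) ∧ (∀ i, z i ∈ V) ∧
      ω = ∑ i, a i • KaehlerDifferential.D k E (z i)

/-- the genus of the extension `E` of `k` is at most `1`: any two regular differentials are linearly
dependent over `k` -/
def GenusAtMostOne (k E : Type) [Field k] [Field E] [Algebra k E] : Prop :=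
  ∀ ω₁ ω₂ : Ω[E⁄k], Regular ω₁ → Regular ω₂ →
    ∃ a₁ a₂ : k, (a₁ ≠ 0 ∨ a₂ ≠ 0) ∧ a₁ • ω₁ + a₂ • ω₂ = 0

/-- Let `N k` and `L k` be sequences of integers which tend to infinity, let `E` be a finitely
generated extension field, in `ℂ`, of the field `A` of all algebraic numbers, all of whose elements
are algebraic over `ℚ(π)`, and let `B` be a multiplicatively independent set of integers `≥ 2`.
Then the genus of the field `E ∩ F B` over `A` is at most `1`: any two of its regular differentials
are linearly dependent over `A`. If `E ∩ R B` contains a transcendental number, then `E ∩ F B` is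
generated over `A` by one element `s`, and all elements of `E ∩ R B` are Laurent polynomials in `s`
with algebraic coefficients. -/
theorem result :
    ∀ N L : ℕ → ℕ, Tendsto N atTop atTop → Tendsto L atTop atTop →
      ∀ E : IntermediateField A ℂ, E.FG →
        (∀ x ∈ E, IsAlgebraic (IntermediateField.adjoin ℚ {(Real.pi : ℂ)}) x) →
        ∀ B : Set ℕ, (∀ b ∈ B, 2 ≤ b) → Independent B →
          GenusAtMostOne A (E ⊓ F N L B : IntermediateField A ℂ) ∧
          ((∃ v ∈ E, v ∈ R N L B ∧ Transcendental ℚ v) →
            ∃ s : ℂ, E ⊓ F N L B = IntermediateField.adjoin A {s} ∧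
              ∀ x ∈ E, x ∈ R N L B → x ∈ Algebra.adjoin A {s, s⁻¹}) := by
  intro N L hN hL E hfg halg B hB2 hB
  have hg : generators N L B = SRF.gens N L B := by
    ext z
    constructor
    · rintro ⟨b, hb, c, x, hc, ⟨i, j, hi, hj, hij⟩, ⟨C, hC⟩, rfl⟩
      exact ⟨b, hb, c, C, x, hc, ⟨j, i, hj, hi, hij.symm⟩, hC, rfl⟩
    · rintro ⟨b, hb, c, C, x, hc, ⟨i, j, hi, hj, hij⟩, hC, rfl⟩
      exact ⟨b, hb, c, x, hc, ⟨j, i, hj, hi, hij.symm⟩, ⟨C, hC⟩, rfl⟩
  have hF : F N L B = IntermediateField.adjoin A (SRF.gens N L B) := by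
    unfold F
    rw [hg]
  have hR : R N L B = Algebra.adjoin A (SRF.gens N L B) := by
    unfold R
    rw [hg]
  rw [hF, hR]
  constructor
  · intro ω₁ ω₂ h₁ h₂
    obtain ⟨a₁, a₂, h3, h4⟩ := (SRF.faltingsB N L hN hL E hfg halg B hB2 hB).1 ω₁ ω₂ h₁ h₂
    refine ⟨a₁, a₂, ?_, h4⟩
    by_contra h5
    push Not at h5
    exact h3 h5
  · rintro ⟨v, hvE, hvR, hvt⟩
    exact SRF.ringB N L hN hL E hfg halg B hB2 hB hvE hvR hvt

end Pool.Agent.Results.MP_57632f_nt.RationalPoints
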