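import Pool.Agent.SRF.FBD

/-!
MP_57632f_nt: the analogue of Siegel's theorem on integral points, over any field of constants, for
the ring which is generated by the real numbers of small block complexity in multiplicatively
independent bases, and all algebraic functions of `π`.
-/

set_option autoImplicit false

namespace Pool.Agent.Results.MP_57632f_nt.SiegelTheorem

open Filter

/-- the `i`-th digit after the point (`i ≥ 1`) of the real number `x` in base `b` -/
noncomputable def digit (b : ℕ) (x : ℝ) (i : ℕ) : ℤ := ⌊x * (b : ℝ) ^ i⌋ % b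

/-- the number of different blocks of `n` consecutive digits of `x` in base `b` which start at one
of the first `X` places after the point -/
noncomputable def blocks (b : ℕ) (x : ℝ) (n X : ℕ) : ℕ :=
  {w : Fin n → ℤ | ∃ i < X, ∀ j : Fin n, w j = digit b x (i + 1 + j)}.ncard

/-- `x` is simple in base `b`, with respect to the sequences `N` and `L`: for some `C` and all `k`
at most `C * N k` different blocks of `N k` digits start at one of the first `L k * N k` places -/
def Simple (N L : ℕ → ℕ) (b : ℕ) (x : ℝ) : Prop :=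
  ∃ C : ℕ, ∀ k, blocks b x (N k) (L k * N k) ≤ C * N k

/-- the bases `b` and `c` have a common power -/
def Dependent (b c : ℕ) : Prop := ∃ i j : ℕ, 1 ≤ i ∧ 1 ≤ j ∧ b ^ i = c ^ j

/-- the elements of `B` are multiplicatively independent -/
def Independent (B : Set ℕ) : Prop :=
  ∀ S : Finset ℕ, (S : Set ℕ) ⊆ B → ∀ e : ℕ → ℤ, ∏ b ∈ S, (b : ℚ) ^ e b = 1 → ∀ b ∈ S, e b = 0

/-- the field of algebraic numbers -/
abbrev A : Type := algebraicClosure ℚ ℂ

/-- the `K`-algebra which is generated by the real numbers which are simple in some base which has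
a common power with an element of `B` -/
noncomputable def R (K : IntermediateField ℚ ℂ) (N L : ℕ → ℕ) (B : Set ℕ) : Subalgebra K ℂ :=
  Algebra.adjoin K {z | ∃ b ∈ B, ∃ (c : ℕ) (x : ℝ), 2 ≤ c ∧ Dependent b c ∧ Simple N L c x ∧ z = x}

/-- Let `N k` and `L k` be sequences of integers which tend to infinity, let `K` be a field of
algebraic numbers, and let `E` be a finitely generated extension field, in `ℂ`, of the field of all
algebraic numbers, all of whose elements are algebraic over `ℚ(π)`. Let `B` be a multiplicatively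
independent set of integers `≥ 2`. Then there is a point with coordinates `x`, `y` in `E` on a
conic `x² - d y² = c`, where `c`, `d` are nonzero elements of `K`, such that the elements of `E`
which belong to the ring `R B` are polynomials in `x` and `y` with coefficients in `K`. Moreover
there is a `b₀` such that for all bases `b ≥ 2` which have no common power with `b₀` the elements
of `E` which belong to `R {b}` are in `K`. -/
theorem result :
    ∀ N L : ℕ → ℕ, Tendsto N atTop atTop → Tendsto L atTop atTop →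
      ∀ K : IntermediateField ℚ ℂ, (∀ a ∈ K, IsAlgebraic ℚ a) →
        ∀ E : IntermediateField A ℂ, E.FG →
          (∀ x ∈ E, IsAlgebraic (IntermediateField.adjoin ℚ {(Real.pi : ℂ)}) x) →
          (∀ B : Set ℕ, (∀ b ∈ B, 2 ≤ b) → Independent B →
            ∃ x ∈ E, ∃ y ∈ E, ∃ c ∈ K, ∃ d ∈ K, c ≠ 0 ∧ d ≠ 0 ∧ x ^ 2 - d * y ^ 2 = c ∧
              ∀ z ∈ E, z ∈ R K N L B → z ∈ Algebra.adjoin K {x, y}) ∧
          ∃ b₀ : ℕ, ∀ b : ℕ, 2 ≤ b → ¬ Dependent b₀ b → ∀ z ∈ E, z ∈ R K N L {b} → z ∈ K := by
  intro N L hN hL K hK E hfg halg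
  constructor
  · intro B hB2 hB
    obtain ⟨x, hx, y, hy, c, hc, d, hd, hc0, hd0, hrel, h1⟩ :=
      SRF.siegelB N L hN hL K hK E hfg halg B hB2 hB
    have hR : R K N L B ≤ Algebra.adjoin K (SRF.gens N L B) := by
      unfold R
      apply Algebra.adjoin_mono
      rintro z ⟨b, hb, c, x, hc, ⟨i, j, hi, hj, hij⟩, ⟨C, hC⟩, rfl⟩
      exact ⟨b, hb, c, C, x, hc, ⟨j, i, hj, hi, hij.symm⟩, hC, rfl⟩
    exact ⟨x, hx, y, hy, c, hc, d, hd, hc0, hd0, hrel, fun z hz hzR => h1 z hz (hR hzR)⟩
  · obtain ⟨_, _, _, _, _, _, _, _, _, _, _, _, b₀, h2⟩ := SRF.siegelK N L hN hL K hK E hfg halg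
    refine ⟨b₀, ?_⟩
    intro b hb hdep z hz hzR
    have hR : R K N L {b} ≤ SRF.RK K N L b := by
      unfold R SRF.RK
      apply Algebra.adjoin_mono
      rintro z ⟨b', hb', c, x, hc, ⟨i, j, hi, hj, hij⟩, ⟨C, hC⟩, rfl⟩
      rw [Set.mem_singleton_iff] at hb'
      subst hb'
      exact ⟨c, C, x, hc, ⟨j, i, hj, hi, hij.symm⟩, hC, rfl⟩
    refine h2 b hb ?_ z hz (hR hzR)
    rintro ⟨i, j, hi, hj, hij⟩
    exact hdep ⟨j, i, hj, hi, hij.symm⟩

end Pool.Agent.Results.MP_57632f_nt.SiegelTheorem
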